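import Mathlib
import Pool.Agent.Work.MP_5d4920_nt.Final

set_option autoImplicit false

/-- Affirmative answer to Q1 of MP_5d4920_nt: both congruences of part (a) and the congruence of
part (b), for all primes in the stated classes. A congruence modulo `p ^ 2` between rational
numbers is written out as: the difference is `p ^ 2 * c` with `c` a rational number whose
denominator is not divisible by `p`. -/
theorem Pool.Agent.Results.MP_5d4920_nt.Full.result :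
    (∀ (p : ℕ) (x y : ℤ), p.Prime → p % 12 = 7 → (p : ℤ) = x ^ 2 + 3 * y ^ 2 → y % 4 = 1 →
      (∃ c : ℚ, ¬ p ∣ c.den ∧
        (∑ k ∈ Finset.range p,
          ((jacobiSym (k : ℤ) 3 : ℤ) : ℚ) * ((Nat.centralBinom k : ℚ) ^ 2 / (-16) ^ k)) -
          (-1) ^ ((p - 3) / 4) * (4 * (y : ℚ) - (p : ℚ) / (3 * (y : ℚ))) = (p : ℚ) ^ 2 * c) ∧
      (∃ c : ℚ, ¬ p ∣ c.den ∧
        (∑ k ∈ Finset.range p,
          ((jacobiSym (k : ℤ) 3 : ℤ) : ℚ) * ((k : ℚ) * (Nat.centralBinom k : ℚ) ^ 2 / (-16) ^ k)) -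
          (-1) ^ ((p + 1) / 4) * (y : ℚ) = (p : ℚ) ^ 2 * c)) ∧
    (∀ p : ℕ, p.Prime → p % 12 = 1 →
      ∃ c : ℚ, ¬ p ∣ c.den ∧
        (∑ k ∈ Finset.range p, ((p - 1).choose k : ℚ) * ((jacobiSym (k : ℤ) 3 : ℤ) : ℚ) *
          ((Nat.centralBinom k : ℚ) ^ 2 / 16 ^ k)) = (p : ℚ) ^ 2 * c) := by
  refine ⟨?_, ?_⟩
  · intro p x y hp h12 hxy hy4
    haveI : Fact p.Prime := ⟨hp⟩
    exact MP5d.final_a x y h12 hxy hy4
  · intro p hp h12
    haveI : Fact p.Prime := ⟨hp⟩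
    exact MP5d.final_b h12
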